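import Pool.Agent.Helper32.PD.GCLa

/-!
# Project PD, block P11c, part b: elements of `E(y)`
-/

set_option autoImplicit false

namespace Pool.Agent.PD

open Polynomial

theorem lf_none32 {E : Type} [Field E] (P Q : E[X]) : lf32 P Q none = Q := rfl

theorem lf_some32 {E : Type} [Field E] (P Q : E[X]) (e : E) : lf32 P Q (some e) = P - C e * Q := rfl

theorem key32 {E Ω : Type} [Field E] [IsAlgClosed E] [CharZero E] [Field Ω] [Algebra E Ω] {ℓ : ℕ}
    (hℓ : ℓ.Prime) {f : E[X]} (hf : f ≠ 0) {t r y : Ω} (hr : r ^ ℓ = aeval t f)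
    (htr : Transcendental E t) (ht : t ∈ IntermediateField.adjoin E {y})
    (hry : r ∈ IntermediateField.adjoin E {y}) :
    Transcendental E y ∧ ∃ P Q : E[X], IsCoprime P Q ∧ Q ≠ 0 ∧ aeval y Q * t = aeval y P ∧
      wronskian P Q ≠ 0 ∧
      ∀ a : E, (∀ e, ¬ ℓ ∣ f.rootMultiplicity e → ℓ ∣ rootMultiplicity a (P - C e * Q)) ∧
        (¬ ℓ ∣ f.natDegree → ℓ ∣ rootMultiplicity a Q) := by
  classical
  have hy : Transcendental E y := by
    intro h
    have h1 : y ∈ (algebraMap E Ω).range :=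
      minpoly.mem_range_of_degree_eq_one E y
        (IsAlgClosed.degree_eq_one_of_irreducible E (minpoly.irreducible h.isIntegral))
    obtain ⟨e, rfl⟩ := h1
    rw [IntermediateField.adjoin_simple_eq_bot_iff.2 (IntermediateField.algebraMap_mem ⊥ e)] at ht
    obtain ⟨e', he'⟩ := IntermediateField.mem_bot.1 ht
    apply htr
    rw [← he']
    exact isAlgebraic_algebraMap e'
  refine ⟨hy, ?_⟩
  have hinj : Function.Injective (aeval (R := E) y) := transcendental_iff_injective.1 hy
  have hne : ∀ p : E[X], p ≠ 0 → aeval y p ≠ 0 := by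
    intro p hp h0
    exact hp (hinj (by rw [h0, map_zero]))
  have ht0 : t ≠ 0 := by
    rintro rfl
    exact htr isAlgebraic_zero
  obtain ⟨P₀, Q₀, hPQ₀⟩ := (IntermediateField.mem_adjoin_simple_iff E t).1 ht
  obtain ⟨A, B, hAB⟩ := (IntermediateField.mem_adjoin_simple_iff E r).1 hry
  have hQ₀ : Q₀ ≠ 0 := by
    rintro rfl
    rw [map_zero, div_zero] at hPQ₀
    exact ht0 hPQ₀
  obtain ⟨g, hg⟩ : ∃ g, g = gcd P₀ Q₀ := ⟨_, rfl⟩
  obtain ⟨P, hP⟩ : g ∣ P₀ := hg ▸ gcd_dvd_left _ _
  obtain ⟨Q, hQ⟩ : g ∣ Q₀ := hg ▸ gcd_dvd_right _ _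
  have hg0 : g ≠ 0 := by
    rintro h0
    rw [h0, zero_mul] at hQ
    exact hQ₀ hQ
  have hQ0 : Q ≠ 0 := by
    rintro rfl
    rw [mul_zero] at hQ
    exact hQ₀ hQ
  have hcop : IsCoprime P Q := by
    have h1 := isCoprime_div_gcd_div_gcd (p := P₀) (q := Q₀) hQ₀
    rw [← hg] at h1
    rwa [show P₀ / g = P by rw [hP]; exact mul_div_cancel_left₀ _ hg0,
      show Q₀ / g = Q by rw [hQ]; exact mul_div_cancel_left₀ _ hg0] at h1
  have htQ : aeval y Q * t = aeval y P := by
    rw [hPQ₀, hP, hQ, map_mul, map_mul]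
    have h1 := hne g hg0
    have h2 := hne Q hQ0
    field_simp
  have hLne : ∀ e, P - C e * Q ≠ 0 := by
    intro e h0
    apply htr
    have h1 : aeval y P = algebraMap E Ω e * aeval y Q := by
      rw [sub_eq_zero.1 h0, map_mul, aeval_C]
    rw [h1, mul_comm] at htQ
    rw [mul_right_cancel₀ (hne Q hQ0) htQ]
    exact isAlgebraic_algebraMap e
  have hft : aeval t f ≠ 0 := fun h => hf ((transcendental_iff.1 htr) f h)
  have hr0 : r ≠ 0 := by
    rintro rfl
    rw [zero_pow hℓ.ne_zero] at hr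
    exact hft hr.symm
  have hB : B ≠ 0 := by
    rintro rfl
    rw [map_zero, div_zero] at hAB
    exact hr0 hAB
  have hA : A ≠ 0 := by
    rintro rfl
    rw [map_zero, zero_div] at hAB
    exact hr0 hAB
  -- the factorisation of `f`
  have hs : f.Splits := IsAlgClosed.splits f
  have hfac : f = C f.leadingCoeff * ∏ e ∈ f.roots.toFinset, (X - C e) ^ rootMultiplicity e f := by
    conv_lhs => rw [hs.eq_prod_roots, prod_multiset_root_eq_finset_root]
  have hN : ∑ e ∈ f.roots.toFinset, rootMultiplicity e f = f.natDegree := by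
    rw [hs.natDegree_eq_card_roots, ← Multiset.toFinset_sum_count_eq]
    exact Finset.sum_congr rfl fun e _ => (count_roots f).symm
  have heq : C f.leadingCoeff * (∏ e ∈ f.roots.toFinset, (P - C e * Q) ^ rootMultiplicity e f) *
      B ^ ℓ = A ^ ℓ * Q ^ f.natDegree := by
    apply hinj
    have h1 : ∀ e, aeval y (P - C e * Q) = aeval y Q * (t - algebraMap E Ω e) := by
      intro e
      rw [map_sub, map_mul, aeval_C, ← htQ]
      ring
    have h2 : aeval t f = algebraMap E Ω f.leadingCoeff *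
        ∏ e ∈ f.roots.toFinset, (t - algebraMap E Ω e) ^ rootMultiplicity e f := by
      conv_lhs => rw [hfac]
      rw [map_mul, aeval_C, map_prod]
      congr 1
      refine Finset.prod_congr rfl fun e _ => ?_
      rw [map_pow, map_sub, aeval_X, aeval_C]
    have h3 : r * aeval y B = aeval y A := by
      rw [hAB, div_mul_cancel₀ _ (hne B hB)]
    rw [map_mul, map_mul, map_mul, map_pow, map_pow, map_pow, map_prod, aeval_C, ← h3, mul_pow, hr,
      h2, ← hN, ← Finset.prod_pow_eq_pow_sum]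
    simp only [map_pow, h1, mul_pow]
    rw [Finset.prod_mul_distrib]
    ring
  refine ⟨P, Q, hcop, hQ0, htQ, ?_, fun a => ?_⟩
  · intro hW
    obtain ⟨h1, h2⟩ := hcop.wronskian_eq_zero_iff.1 hW
    have h3 := Polynomial.derivative_eq_zero.1 h1
    have h4 := Polynomial.derivative_eq_zero.1 h2
    obtain ⟨p, rfl⟩ := natDegree_eq_zero.1 h3
    obtain ⟨q, rfl⟩ := natDegree_eq_zero.1 h4
    apply htr
    rw [aeval_C, aeval_C] at htQ
    have hq : algebraMap E Ω q ≠ 0 := by
      rw [Ne, map_eq_zero]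
      rintro rfl
      exact hQ0 C_0
    have h5 : t = algebraMap E Ω (p / q) := by
      rw [map_div₀, eq_div_iff hq, mul_comm]
      exact htQ
    rw [h5]
    exact isAlgebraic_algebraMap _
  · obtain ⟨h1, h2⟩ := dvd_rm32 hℓ hcop hQ0 hLne (leadingCoeff_ne_zero.2 hf) hA hB heq a
    refine ⟨fun e he => h1 e ?_ he, h2⟩
    rw [Multiset.mem_toFinset, mem_roots hf, ← rootMultiplicity_pos hf]
    rcases Nat.eq_zero_or_pos (rootMultiplicity e f) with h0 | h0
    · rw [h0] at he
      exact absurd (dvd_zero _) he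
    · exact h0

end Pool.Agent.PD
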