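import Pool.Agent.Helper28.PD.Defs
import Pool.Agent.Helper32.PD.GCLb

/-!
# Project PD, block P11c: `y ^ ℓ = f(x)` with at least three branch points is a good curve
-/

set_option autoImplicit false

namespace Pool.Agent.PD

open Polynomial
open Pool.Agent.L (cst)

theorem aeval_mem32 {K L : Type} [Field K] [Field L] [Algebra K L] (F : IntermediateField K L)
    {a : L} (ha : a ∈ F) (p : K[X]) : aeval a p ∈ F := by
  have h1 := IntermediateField.aeval_coe F (⟨a, ha⟩ : F) p
  have h2 : aeval a p = ((aeval (⟨a, ha⟩ : F) p : F) : L) := h1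
  rw [h2]
  exact (aeval (⟨a, ha⟩ : F) p).2

/-- `k(x)` is a function field -/
theorem ff_frac32 (k : Type) [Field k] :
    VC.IsFunctionField k (FractionRing k[X]) := by
  have htr : Transcendental k (algebraMap k[X] (FractionRing k[X]) X) := by
    rw [transcendental_algebraMap_iff (IsFractionRing.injective k[X] (FractionRing k[X]))]
    exact transcendental_X k
  have htop : IntermediateField.adjoin k {algebraMap k[X] (FractionRing k[X]) X} = ⊤ := by
    rw [eq_top_iff]
    rintro z -
    have hpoly : ∀ p : k[X], algebraMap k[X] (FractionRing k[X]) p ∈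
        IntermediateField.adjoin k {algebraMap k[X] (FractionRing k[X]) X} := by
      intro p
      have h1 : algebraMap k[X] (FractionRing k[X]) p =
          aeval (algebraMap k[X] (FractionRing k[X]) X) p := by
        rw [aeval_algebraMap_apply, aeval_X_left_apply]
      rw [h1]
      exact aeval_mem32 _ (IntermediateField.mem_adjoin_simple_self k _) p
    obtain ⟨p, q, _, rfl⟩ := IsFractionRing.div_surjective (A := k[X]) z
    exact div_mem (hpoly p) (hpoly q)
  refine ⟨_, htr, ?_⟩
  rw [htop]
  refine Module.Finite.of_surjective (R := (⊤ : IntermediateField k (FractionRing k[X])))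
    (M := (⊤ : IntermediateField k (FractionRing k[X])))
    (Algebra.linearMap (⊤ : IntermediateField k (FractionRing k[X])) (FractionRing k[X])) ?_
  intro x
  exact ⟨⟨x, IntermediateField.mem_top⟩, rfl⟩

/-- the branch points -/
theorem exists_T32 {E : Type} [Field E] [IsAlgClosed E] {ℓ : ℕ} {f : E[X]} (hf : f ≠ 0) :
    ∃ T : Finset (Option E), T.card = Nat.card {e : E // ¬ ℓ ∣ f.rootMultiplicity e} +
        (if ℓ ∣ f.natDegree then 0 else 1) ∧ (ℓ = 2 → Even T.card) ∧
      ∀ o ∈ T, (o = none ∧ ¬ ℓ ∣ f.natDegree) ∨ ∃ e, o = some e ∧ ¬ ℓ ∣ f.rootMultiplicity e := by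
  classical
  obtain ⟨S, hS⟩ : ∃ S : Finset E, S = f.roots.toFinset.filter fun e =>
    ¬ ℓ ∣ f.rootMultiplicity e := ⟨_, rfl⟩
  have hmem : ∀ e, e ∈ S ↔ ¬ ℓ ∣ f.rootMultiplicity e := by
    intro e
    rw [hS, Finset.mem_filter, Multiset.mem_toFinset, mem_roots hf, ← rootMultiplicity_pos hf]
    constructor
    · exact fun h => h.2
    · intro h
      refine ⟨?_, h⟩
      rcases Nat.eq_zero_or_pos (rootMultiplicity e f) with h0 | h0
      · rw [h0] at h
        exact absurd (dvd_zero _) h
      · exact h0
  have hcard : Nat.card {e : E // ¬ ℓ ∣ f.rootMultiplicity e} = S.card :=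
    Nat.subtype_card S hmem
  obtain ⟨I, hI⟩ : ∃ I : Finset (Option E), I = if ℓ ∣ f.natDegree then ∅ else {none} := ⟨_, rfl⟩
  have hIc : I.card = if ℓ ∣ f.natDegree then 0 else 1 := by
    rw [hI]
    split_ifs <;> simp
  have hdis : Disjoint (S.image some) I := by
    rw [Finset.disjoint_left]
    intro o ho ho'
    obtain ⟨e, -, rfl⟩ := Finset.mem_image.1 ho
    rw [hI] at ho'
    split_ifs at ho' <;> simp at ho'
  have hTc : (S.image some ∪ I).card = S.card + if ℓ ∣ f.natDegree then 0 else 1 := by
    rw [Finset.card_union_of_disjoint hdis, hIc,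
      Finset.card_image_of_injective _ (Option.some_injective E)]
  refine ⟨S.image some ∪ I, by rw [hTc, hcard], ?_, ?_⟩
  · rintro rfl
    rw [hTc]
    have hs : f.Splits := IsAlgClosed.splits f
    have hN : ∑ e ∈ f.roots.toFinset, rootMultiplicity e f = f.natDegree := by
      rw [hs.natDegree_eq_card_roots, ← Multiset.toFinset_sum_count_eq]
      exact Finset.sum_congr rfl fun e _ => (count_roots f).symm
    have h1 := Finset.odd_sum_iff_odd_card_odd (s := f.roots.toFinset)
      (fun e => rootMultiplicity e f)
    rw [hN] at h1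
    have h2 : (f.roots.toFinset.filter fun e => Odd (rootMultiplicity e f)) = S := by
      rw [hS]
      refine Finset.filter_congr fun e _ => ?_
      rw [← even_iff_two_dvd, Nat.not_even_iff_odd]
    rw [h2] at h1
    split_ifs with h3
    · rw [add_zero, ← Nat.not_odd_iff_even, ← h1, Nat.not_odd_iff_even, even_iff_two_dvd]
      exact h3
    · have h4 : Odd S.card := by
        rw [← h1, ← Nat.not_even_iff_odd, even_iff_two_dvd]
        exact h3
      exact h4.add_odd odd_one
  · intro o ho
    rcases Finset.mem_union.1 ho with h | h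
    · obtain ⟨e, he, rfl⟩ := Finset.mem_image.1 h
      exact Or.inr ⟨e, rfl, (hmem e).1 he⟩
    · rw [hI] at h
      split_ifs at h with h3
      · simp at h
      · exact Or.inl ⟨by simpa using h, h3⟩

/-- **BLOCK P11c.** -/
theorem gCL : StmtGCL := by
  intro k _ _ ℓ f hℓ hf h3
  classical
  have hch : CharZero (AlgebraicClosure k) :=
    charZero_of_injective_algebraMap (algebraMap k (AlgebraicClosure k)).injective
  let ι : AlgebraicClosure k →ₐ[k] AlgebraicClosure (FractionRing k[X]) := IsAlgClosed.lift
  let _ : Algebra (AlgebraicClosure k) (AlgebraicClosure (FractionRing k[X])) := ι.toRingHom.toAlgebra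
  have hι : ∀ e, algebraMap (AlgebraicClosure k) (AlgebraicClosure (FractionRing k[X])) e = ι e :=
    fun e => rfl
  have : IsScalarTower k (AlgebraicClosure k) (AlgebraicClosure (FractionRing k[X])) :=
    IsScalarTower.of_algebraMap_eq fun a => (ι.commutes a).symm
  obtain ⟨t, ht⟩ : ∃ t : AlgebraicClosure (FractionRing k[X]), t =
    algebraMap (FractionRing k[X]) _ (algebraMap k[X] (FractionRing k[X]) X) := ⟨_, rfl⟩
  have htk : Transcendental k t := by
    rw [ht, transcendental_algebraMap_iff (algebraMap (FractionRing k[X]) _).injective,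
      transcendental_algebraMap_iff (IsFractionRing.injective k[X] (FractionRing k[X]))]
    exact transcendental_X k
  have htr : Transcendental (AlgebraicClosure k) t := by
    intro h
    exact htk (h.restrictScalars k)
  -- the closures
  have hcst : ∀ z ∈ cst k (FractionRing k[X]), ∀ S : Set (AlgebraicClosure (FractionRing k[X])),
      z ∈ IntermediateField.adjoin (AlgebraicClosure k) S := by
    intro z hz S
    have hz' : IsAlgebraic k z := hz
    have h1 : IsAlgebraic (AlgebraicClosure k) z := hz'.extendScalars (algebraMap k (AlgebraicClosure k)).injective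
    have h2 : z ∈ (algebraMap (AlgebraicClosure k) (AlgebraicClosure (FractionRing k[X]))).range :=
      minpoly.mem_range_of_degree_eq_one (AlgebraicClosure k) z
        (IsAlgClosed.degree_eq_one_of_irreducible (AlgebraicClosure k) (minpoly.irreducible h1.isIntegral))
    obtain ⟨e, rfl⟩ := h2
    exact IntermediateField.algebraMap_mem _ e
  have hK0 : ∀ z : FractionRing k[X], ∀ S : Set (AlgebraicClosure (FractionRing k[X])),
      t ∈ IntermediateField.adjoin (AlgebraicClosure k) S →
      algebraMap _ (AlgebraicClosure (FractionRing k[X])) z ∈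
        IntermediateField.adjoin (AlgebraicClosure k) S := by
    intro z S htS
    have hpoly : ∀ p : k[X], algebraMap (FractionRing k[X]) (AlgebraicClosure (FractionRing k[X]))
        (algebraMap k[X] (FractionRing k[X]) p) ∈
        IntermediateField.adjoin (AlgebraicClosure k) S := by
      intro p
      have h1 : algebraMap (FractionRing k[X]) (AlgebraicClosure (FractionRing k[X]))
          (algebraMap k[X] (FractionRing k[X]) p) = aeval t (p.map (algebraMap k (AlgebraicClosure k))) := by
        rw [aeval_map_algebraMap, ht, aeval_algebraMap_apply, aeval_algebraMap_apply,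
          aeval_X_left_apply]
      rw [h1]
      exact aeval_mem32 _ htS _
    obtain ⟨p, q, _, rfl⟩ := IsFractionRing.div_surjective (A := k[X]) z
    rw [map_div₀]
    exact div_mem (hpoly p) (hpoly q)
  have hne : f.map (algebraMap k (AlgebraicClosure k)) ≠ 0 := by
    rwa [Ne, Polynomial.map_eq_zero]
  have hft : algebraMap (FractionRing k[X]) (AlgebraicClosure (FractionRing k[X]))
      (algebraMap k[X] (FractionRing k[X]) f) =
      aeval t (f.map (algebraMap k (AlgebraicClosure k))) := by
    rw [aeval_map_algebraMap, ht, aeval_algebraMap_apply, aeval_algebraMap_apply,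
      aeval_X_left_apply]
  obtain ⟨T, hTc, hT2, hT⟩ := exists_T32 (ℓ := ℓ) hne
  rw [natDegree_map] at hTc hT
  have hT3 : 3 ≤ T.card := by
    rw [hTc]
    exact h3
  have hcl : ∀ (S S' : Set (AlgebraicClosure (FractionRing k[X]))),
      (∀ z ∈ S, z ∈ IntermediateField.adjoin (AlgebraicClosure k) S') →
      ∀ z ∈ Subfield.closure S, z ∈ IntermediateField.adjoin (AlgebraicClosure k) S' := by
    intro S S' h z hz
    have h1 : Subfield.closure S ≤
        (IntermediateField.adjoin (AlgebraicClosure k) S').toSubfield :=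
      Subfield.closure_le.2 h
    exact h1 hz
  refine ⟨ff_frac32 k, ?_, ?_⟩
  · intro r hr i hi hin hmem
    rw [hft] at hr
    have hri : r ^ i ∈ IntermediateField.adjoin (AlgebraicClosure k) {t} := by
      refine hcl _ _ ?_ _ hmem
      rintro z (hz | ⟨z, rfl⟩)
      · exact hcst z hz _
      · exact hK0 z _ (IntermediateField.mem_adjoin_simple_self _ t)
    have hrl : r ^ ℓ ∈ IntermediateField.adjoin (AlgebraicClosure k) {t} := by
      rw [hr]
      exact aeval_mem32 _ (IntermediateField.mem_adjoin_simple_self _ t) _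
    have hr0 : r ≠ 0 := by
      rintro rfl
      rw [zero_pow hℓ.ne_zero] at hr
      exact hne ((transcendental_iff.1 htr) _ hr.symm)
    have hcop : Nat.Coprime i ℓ := by
      rw [Nat.coprime_comm, hℓ.coprime_iff_not_dvd]
      exact Nat.not_dvd_of_pos_of_lt hi hin
    obtain ⟨u, v, huv⟩ := Nat.isCoprime_iff_coprime.2 hcop
    have hrmem : r ∈ IntermediateField.adjoin (AlgebraicClosure k) {t} := by
      have h1 : r = (r ^ i) ^ u * (r ^ ℓ) ^ v := by
        rw [← zpow_natCast, ← zpow_natCast, ← zpow_mul, ← zpow_mul, ← zpow_add₀ hr0,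
          mul_comm (i : ℤ), mul_comm (ℓ : ℤ), huv, zpow_one]
      rw [h1]
      exact mul_mem (zpow_mem hri u) (zpow_mem hrl v)
    obtain ⟨-, P, Q, hPQ, hQ, htQ, -, hdv⟩ := key32 hℓ hne hr htr
      (IntermediateField.mem_adjoin_simple_self _ t) hrmem
    have hinj : Function.Injective (aeval (R := AlgebraicClosure k) t) :=
      transcendental_iff_injective.1 htr
    have hP : P = Q * X := by
      apply hinj
      rw [map_mul, aeval_X, htQ]
    obtain ⟨e, he⟩ : ∃ e, ¬ ℓ ∣ (f.map (algebraMap k (AlgebraicClosure k))).rootMultiplicity e := by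
      by_contra hcon
      push Not at hcon
      have h1 : T ⊆ {none} := by
        intro o ho
        rcases hT o ho with ⟨rfl, -⟩ | ⟨e, rfl, he⟩
        · simp
        · exact absurd (hcon e) he
      have h2 := Finset.card_le_card h1
      rw [Finset.card_singleton] at h2
      omega
    have h1 := (hdv e).1 e he
    have hQu : IsUnit Q := hPQ.symm.isUnit_of_dvd (by rw [hP]; exact dvd_mul_right _ _)
    obtain ⟨q, hq, hqQ⟩ := Polynomial.isUnit_iff.1 hQu
    have h2 : P - C e * Q = C q * (X - C e) := by
      rw [hP, ← hqQ]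
      ring
    rw [h2, rootMultiplicity_mul (mul_ne_zero (C_ne_zero.2 hq.ne_zero) (X_sub_C_ne_zero e)),
      rootMultiplicity_C, rootMultiplicity_X_sub_C_self, zero_add] at h1
    exact hℓ.one_lt.ne' (Nat.dvd_one.1 h1)
  · intro r hr y heq
    rw [hft] at hr
    have hsub : ∀ z ∈ Subfield.closure (cst k (FractionRing k[X]) ∪ {y}),
        z ∈ IntermediateField.adjoin (AlgebraicClosure k) {y} := by
      refine hcl _ _ ?_
      rintro z (hz | hz)
      · exact hcst z hz _
      · rw [Set.mem_singleton_iff.1 hz]
        exact IntermediateField.mem_adjoin_simple_self _ y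
    have hty : t ∈ IntermediateField.adjoin (AlgebraicClosure k) {y} := by
      apply hsub
      rw [← heq]
      refine Subfield.subset_closure (Or.inl (Or.inr ?_))
      rw [ht]
      exact ⟨_, rfl⟩
    have hry : r ∈ IntermediateField.adjoin (AlgebraicClosure k) {y} := by
      apply hsub
      rw [← heq]
      exact Subfield.subset_closure (Or.inr rfl)
    obtain ⟨-, P, Q, hPQ, hQ, htQ, hW, hdv⟩ := key32 hℓ hne hr htr hty hry
    rw [natDegree_map] at hdv
    refine contra32 hℓ hPQ hW T hT3 hT2 fun o ho a => ?_
    rcases hT o ho with ⟨rfl, h⟩ | ⟨e, rfl, h⟩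
    · exact (hdv a).2 h
    · exact (hdv a).1 e h

end Pool.Agent.PD
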