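import Mathlib

/-!
# Project PD, block P11c, part a: polynomials
-/

set_option autoImplicit false

namespace Pool.Agent.PD

open Polynomial

/-- `P - e Q`, and `Q` for infinity -/
noncomputable def lf32 {E : Type} [Field E] (P Q : E[X]) : Option E → E[X]
  | none => Q
  | some e => P - C e * Q

section

variable {E : Type} [Field E] {P Q : E[X]}

theorem lf_coprime32 (h : IsCoprime P Q) {o o' : Option E} (hne : o ≠ o') :
    IsCoprime (lf32 P Q o) (lf32 P Q o') := by
  have key : ∀ e : E, IsCoprime (P - C e * Q) Q := by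
    intro e
    have h1 : P - C e * Q = P + Q * (-C e) := by ring
    rw [h1]
    exact h.add_mul_left_left _
  cases o with
  | none =>
    cases o' with
    | none => exact absurd rfl hne
    | some e => exact (key e).symm
  | some e =>
    cases o' with
    | none => exact key e
    | some e' =>
      have hee : e - e' ≠ 0 := fun h0 => hne (by rw [sub_eq_zero.1 h0])
      have h1 : IsCoprime (P - C e * Q) (C (e - e') * Q) :=
        (isCoprime_mul_unit_left_right (isUnit_C.2 hee.isUnit) _ _).2 (key e)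
      have h2 : P - C e' * Q = C (e - e') * Q + (P - C e * Q) * 1 := by
        rw [C_sub]; ring
      show IsCoprime (P - C e * Q) (P - C e' * Q)
      rw [h2]
      exact h1.add_mul_left_right 1

theorem lf_wr32 {o o' : Option E} (hne : o ≠ o') : ∃ u : E, u ≠ 0 ∧
    wronskian (lf32 P Q o) (lf32 P Q o') = C u * wronskian P Q := by
  cases o with
  | none =>
    cases o' with
    | none => exact absurd rfl hne
    | some e =>
      refine ⟨-1, by simp, ?_⟩
      show wronskian Q (P - C e * Q) = _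
      simp only [wronskian, derivative_sub, derivative_mul, derivative_C, zero_mul, zero_add,
        map_neg, map_one]
      ring
  | some e =>
    cases o' with
    | none =>
      refine ⟨1, by simp, ?_⟩
      show wronskian (P - C e * Q) Q = _
      simp only [wronskian, derivative_sub, derivative_mul, derivative_C, zero_mul, zero_add,
        map_one]
      ring
    | some e' =>
      refine ⟨e - e', fun h0 => hne (by rw [sub_eq_zero.1 h0]), ?_⟩
      show wronskian (P - C e * Q) (P - C e' * Q) = _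
      simp only [wronskian, derivative_sub, derivative_mul, derivative_C, zero_mul, zero_add,
        C_sub]
      ring

theorem rm_pow32 {p : E[X]} (hp : p ≠ 0) (a : E) (n : ℕ) :
    rootMultiplicity a (p ^ n) = n * rootMultiplicity a p := by
  induction n with
  | zero => rw [pow_zero, zero_mul, rootMultiplicity_eq_zero]; simp
  | succ n ih =>
    rw [pow_succ, rootMultiplicity_mul (mul_ne_zero (pow_ne_zero n hp) hp), ih]
    ring

theorem rm_prod32 {ι : Type} (s : Finset ι) (p : ι → E[X]) (hp : ∀ i ∈ s, p i ≠ 0) (a : E) :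
    rootMultiplicity a (∏ i ∈ s, p i) = ∑ i ∈ s, rootMultiplicity a (p i) := by
  classical
  induction s using Finset.induction_on with
  | empty => simp
  | insert i s his ih =>
    rw [Finset.prod_insert his, Finset.sum_insert his, rootMultiplicity_mul, ih]
    · exact fun j hj => hp j (Finset.mem_insert_of_mem hj)
    · exact mul_ne_zero (hp i (Finset.mem_insert_self _ _))
        (Finset.prod_ne_zero_iff.2 fun j hj => hp j (Finset.mem_insert_of_mem hj))

/-- over an algebraically closed field: a polynomial with all multiplicities divisible by `ℓ` -/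
theorem exists_pow32 [IsAlgClosed E] {ℓ : ℕ} {p : E[X]}
    (hd : ∀ a, ℓ ∣ rootMultiplicity a p) : ∃ H : E[X], p = C p.leadingCoeff * H ^ ℓ := by
  classical
  have hs : p.Splits := IsAlgClosed.splits p
  refine ⟨∏ a ∈ p.roots.toFinset, (X - C a) ^ (rootMultiplicity a p / ℓ), ?_⟩
  conv_lhs => rw [hs.eq_prod_roots, prod_multiset_root_eq_finset_root]
  congr 1
  rw [← Finset.prod_pow]
  refine Finset.prod_congr rfl fun a _ => ?_
  rw [← pow_mul, Nat.div_mul_cancel (hd a)]

variable {R : Finset E} {m : E → ℕ} {ℓ N : ℕ} {c : E} {A B : E[X]}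

/-- the multiplicities at the branch points -/
theorem dvd_rm32 (hℓ : ℓ.Prime) (hPQ : IsCoprime P Q) (hQ : Q ≠ 0) (hP : ∀ e, P - C e * Q ≠ 0)
    (hc : c ≠ 0) (hA : A ≠ 0) (hB : B ≠ 0)
    (heq : C c * (∏ e ∈ R, (P - C e * Q) ^ m e) * B ^ ℓ = A ^ ℓ * Q ^ N) (a : E) :
    (∀ e ∈ R, ¬ ℓ ∣ m e → ℓ ∣ rootMultiplicity a (P - C e * Q)) ∧
      (¬ ℓ ∣ N → ℓ ∣ rootMultiplicity a Q) := by
  classical
  have hprod : (∏ e ∈ R, (P - C e * Q) ^ m e) ≠ 0 :=
    Finset.prod_ne_zero_iff.2 fun e _ => pow_ne_zero _ (hP e)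
  have h1 : rootMultiplicity a (C c * (∏ e ∈ R, (P - C e * Q) ^ m e) * B ^ ℓ) =
      ∑ e ∈ R, m e * rootMultiplicity a (P - C e * Q) + ℓ * rootMultiplicity a B := by
    rw [rootMultiplicity_mul (mul_ne_zero (mul_ne_zero (C_ne_zero.2 hc) hprod) (pow_ne_zero _ hB)),
      rootMultiplicity_mul (mul_ne_zero (C_ne_zero.2 hc) hprod), rootMultiplicity_C, zero_add,
      rm_pow32 hB, rm_prod32 _ _ (fun e _ => pow_ne_zero _ (hP e))]
    congr 1
    exact Finset.sum_congr rfl fun e _ => rm_pow32 (hP e) a _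
  have h2 : rootMultiplicity a (A ^ ℓ * Q ^ N) =
      ℓ * rootMultiplicity a A + N * rootMultiplicity a Q := by
    rw [rootMultiplicity_mul (mul_ne_zero (pow_ne_zero _ hA) (pow_ne_zero _ hQ)),
      rm_pow32 hA, rm_pow32 hQ]
  rw [heq, h2] at h1
  have hcop : ∀ {p q : E[X]}, IsCoprime p q → eval a p = 0 → eval a q ≠ 0 := by
    rintro p q ⟨u, v, huv⟩ hp hq
    have := congrArg (eval a) huv
    rw [eval_add, eval_mul, eval_mul, hp, hq, mul_zero, mul_zero, add_zero, eval_one] at this
    exact zero_ne_one this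
  have hrm0 : ∀ {p : E[X]}, eval a p ≠ 0 → rootMultiplicity a p = 0 := by
    intro p hp
    rw [rootMultiplicity_eq_zero_iff]
    exact fun h => absurd h hp
  constructor
  · intro e he hme
    by_cases ha : eval a (P - C e * Q) = 0
    · have hQ0 : rootMultiplicity a Q = 0 :=
        hrm0 (hcop (lf_coprime32 hPQ (o := some e) (o' := none) (by simp)) ha)
      have hsum : ∑ e' ∈ R, m e' * rootMultiplicity a (P - C e' * Q) =
          m e * rootMultiplicity a (P - C e * Q) := by
        refine Finset.sum_eq_single_of_mem e he fun e' _ hne => ?_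
        have hz : rootMultiplicity a (P - C e' * Q) = 0 :=
          hrm0 (hcop (lf_coprime32 hPQ (o := some e) (o' := some e')
            (fun h => hne (Option.some.inj h).symm)) ha)
        rw [hz, mul_zero]
      rw [hQ0, mul_zero, add_zero, hsum] at h1
      have h3 : ℓ ∣ m e * rootMultiplicity a (P - C e * Q) := by
        rw [← Nat.dvd_add_left (dvd_mul_right ℓ (rootMultiplicity a B)), ← h1]
        exact dvd_mul_right _ _
      exact (hℓ.dvd_mul.1 h3).resolve_left hme
    · rw [hrm0 ha]
      exact dvd_zero _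
  · intro hN
    by_cases ha : eval a Q = 0
    · have hsum : ∑ e' ∈ R, m e' * rootMultiplicity a (P - C e' * Q) = 0 := by
        refine Finset.sum_eq_zero fun e' _ => ?_
        have hz : rootMultiplicity a (P - C e' * Q) = 0 :=
          hrm0 (hcop (lf_coprime32 hPQ (o := none) (o' := some e') (by simp)) ha)
        rw [hz, mul_zero]
      rw [hsum, zero_add] at h1
      have h3 : ℓ ∣ N * rootMultiplicity a Q := by
        rw [← Nat.dvd_add_right (dvd_mul_right ℓ (rootMultiplicity a A)), h1]
        exact dvd_mul_right _ _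
      exact (hℓ.dvd_mul.1 h3).resolve_left hN
    · rw [hrm0 ha]
      exact dvd_zero _

/-- the main inequality -/
theorem contra32 [IsAlgClosed E] [CharZero E] (hℓ : ℓ.Prime) (hPQ : IsCoprime P Q)
    (hW : wronskian P Q ≠ 0) (T : Finset (Option E)) (h3 : 3 ≤ T.card) (h2 : ℓ = 2 → Even T.card)
    (hT : ∀ o ∈ T, ∀ a, ℓ ∣ rootMultiplicity a (lf32 P Q o)) : False := by
  classical
  have hH : ∀ o : Option E, ∃ H : E[X], o ∈ T →
      lf32 P Q o = C (lf32 P Q o).leadingCoeff * H ^ ℓ := by
    intro o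
    by_cases ho : o ∈ T
    · obtain ⟨H, hH⟩ := exists_pow32 (hT o ho)
      exact ⟨H, fun _ => hH⟩
    · exact ⟨0, fun h => absurd h ho⟩
  choose H hH using hH
  have hne0 : ∀ o, lf32 P Q o ≠ 0 := by
    intro o h0
    obtain ⟨o', hne⟩ : ∃ o' : Option E, o ≠ o' := by
      cases o with
      | none => exact ⟨some 0, by simp⟩
      | some e => exact ⟨none, by simp⟩
    obtain ⟨u, hu, hw⟩ := lf_wr32 (P := P) (Q := Q) hne
    rw [h0, wronskian_zero_left] at hw
    exact mul_ne_zero (C_ne_zero.2 hu) hW hw.symm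
  have hH0 : ∀ o ∈ T, H o ≠ 0 := by
    intro o ho h0
    apply hne0 o
    rw [hH o ho, h0, zero_pow hℓ.ne_zero, mul_zero]
  have hdeg : ∀ o ∈ T, (lf32 P Q o).natDegree = ℓ * (H o).natDegree := by
    intro o ho
    conv_lhs => rw [hH o ho]
    rw [natDegree_C_mul (leadingCoeff_ne_zero.2 (hne0 o)), natDegree_pow]
  have hup : ∀ o ∈ T, ∀ o' ∈ T, o ≠ o' →
      (wronskian P Q).natDegree < ℓ * ((H o).natDegree + (H o').natDegree) := by
    intro o ho o' ho' hne
    obtain ⟨u, hu, hw⟩ := lf_wr32 (P := P) (Q := Q) hne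
    have h1 : wronskian (lf32 P Q o) (lf32 P Q o') ≠ 0 := by
      rw [hw]
      exact mul_ne_zero (C_ne_zero.2 hu) hW
    have h2 := natDegree_wronskian_lt_add h1
    rw [hw, natDegree_C_mul hu, hdeg o ho, hdeg o' ho'] at h2
    rw [mul_add]
    exact h2
  have hdvd : ∀ o ∈ T, H o ^ (ℓ - 1) ∣ wronskian P Q := by
    intro o ho
    obtain ⟨o', hne⟩ : ∃ o' : Option E, o ≠ o' := by
      cases o with
      | none => exact ⟨some 0, by simp⟩
      | some e => exact ⟨none, by simp⟩
    obtain ⟨u, hu, hw⟩ := lf_wr32 (P := P) (Q := Q) hne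
    have h1 : H o ^ (ℓ - 1) ∣ lf32 P Q o := by
      rw [hH o ho]
      exact (pow_dvd_pow _ (Nat.sub_le _ _)).mul_left _
    have h2 : H o ^ (ℓ - 1) ∣ derivative (lf32 P Q o) := by
      rw [hH o ho, derivative_C_mul, derivative_pow]
      exact ((dvd_mul_left _ _).mul_right _).mul_left _
    have h3 : H o ^ (ℓ - 1) ∣ C u * wronskian P Q := by
      rw [← hw]
      exact dvd_sub (h1.mul_right _) (h2.mul_right _)
    exact ((isUnit_C.2 hu.isUnit).dvd_mul_left).1 h3
  have hcop : ∀ o ∈ T, ∀ o' ∈ T, o ≠ o' → IsCoprime (H o ^ (ℓ - 1)) (H o' ^ (ℓ - 1)) := by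
    intro o ho o' ho' hne
    have h1 := lf_coprime32 hPQ hne
    have h2 : IsCoprime (H o) (H o') := by
      refine IsCoprime.of_isCoprime_of_dvd_left (IsCoprime.of_isCoprime_of_dvd_right h1 ?_) ?_
      · conv_rhs => rw [hH o' ho']
        exact (dvd_pow_self _ hℓ.ne_zero).mul_left _
      · conv_rhs => rw [hH o ho]
        exact (dvd_pow_self _ hℓ.ne_zero).mul_left _
    exact h2.pow
  have hlow : ∀ S ⊆ T, (ℓ - 1) * ∑ o ∈ S, (H o).natDegree ≤ (wronskian P Q).natDegree := by
    intro S hS
    have h1 : ∏ o ∈ S, H o ^ (ℓ - 1) ∣ wronskian P Q :=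
      Finset.prod_dvd_of_coprime (fun o ho o' ho' hne => hcop o (hS ho) o' (hS ho') hne)
        fun o ho => hdvd o (hS ho)
    have h2 := natDegree_le_of_dvd h1 hW
    rw [natDegree_prod _ _ fun o ho => pow_ne_zero _ (hH0 o (hS ho))] at h2
    simp only [natDegree_pow] at h2
    rw [Finset.mul_sum]
    exact h2
  obtain ⟨w, hw⟩ : ∃ w, w = (wronskian P Q).natDegree := ⟨_, rfl⟩
  rw [← hw] at hlow hup
  by_cases hℓ2 : ℓ = 2
  · have h4 : 4 ≤ T.card := by
      obtain ⟨t, ht⟩ := h2 hℓ2
      omega
    obtain ⟨S, hS, hS4⟩ := Finset.exists_subset_card_eq h4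
    obtain ⟨S', i, hi, hSi, hS'⟩ : ∃ (S' : Finset (Option E)) (i : Option E), i ∉ S' ∧
        insert i S' = S ∧ S'.card = 3 := by
      obtain ⟨i, S', h1, h2, h3⟩ := Finset.card_eq_succ.1 hS4
      exact ⟨S', i, h1, h2, h3⟩
    obtain ⟨a, b, d, hab, had, hbd, hS3⟩ := Finset.card_eq_three.1 hS'
    have hia : i ≠ a := fun h => hi (by rw [hS3, h]; simp)
    have hib : i ≠ b := fun h => hi (by rw [hS3, h]; simp)
    have hid : i ≠ d := fun h => hi (by rw [hS3, h]; simp)
    have hmem : ∀ z, z ∈ S ↔ z = i ∨ z = a ∨ z = b ∨ z = d := by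
      intro z
      rw [← hSi, hS3]
      simp
    have h5 := hlow S hS
    have hsum : ∑ o ∈ S, (H o).natDegree = (H i).natDegree + ((H a).natDegree +
        ((H b).natDegree + (H d).natDegree)) := by
      rw [← hSi, hS3, Finset.sum_insert (by simp [hia, hib, hid]),
        Finset.sum_insert (by simp [hab, had]), Finset.sum_insert (by simp [hbd]),
        Finset.sum_singleton]
    rw [hsum] at h5
    have h6 := hup i (hS ((hmem i).2 (by simp))) a (hS ((hmem a).2 (by simp))) hia
    have h7 := hup b (hS ((hmem b).2 (by simp))) d (hS ((hmem d).2 (by simp))) hbd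
    subst hℓ2
    omega
  · obtain ⟨S, hS, hS3⟩ := Finset.exists_subset_card_eq h3
    obtain ⟨a, b, d, hab, had, hbd, hS'⟩ := Finset.card_eq_three.1 hS3
    have h5 := hlow S hS
    have hsum : ∑ o ∈ S, (H o).natDegree = (H a).natDegree +
        ((H b).natDegree + (H d).natDegree) := by
      rw [hS', Finset.sum_insert (by simp [hab, had]), Finset.sum_insert (by simp [hbd]),
        Finset.sum_singleton]
    rw [hsum] at h5
    have ha : a ∈ T := hS (by rw [hS']; simp)
    have hb : b ∈ T := hS (by rw [hS']; simp)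
    have hd : d ∈ T := hS (by rw [hS']; simp)
    have h6 := hup a ha b hb hab
    have h7 := hup a ha d hd had
    have h8 := hup b hb d hd hbd
    obtain ⟨q, rfl⟩ : ∃ q, ℓ = q + 3 := ⟨ℓ - 3, by have := hℓ.two_le; omega⟩
    have e1 : q + 3 - 1 = q + 2 := rfl
    rw [e1] at h5
    nlinarith [Nat.zero_le (q * (H a).natDegree), Nat.zero_le (q * (H b).natDegree),
      Nat.zero_le (q * (H d).natDegree)]

end

end Pool.Agent.PD
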